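import Pool.Agent.Lib.MP_f4297e_al.Ray

namespace Pool.Agent.Lib.MP_f4297e_al

open Quaternion Pointwise

noncomputable instance : DecidableEq G := Classical.decEq G

@[irreducible] noncomputable def boxQ (R : ℤ) : Finset Q := by
  classical
  exact ((Finset.Icc (-R) R) ×ˢ (Finset.Icc (-R) R) ×ˢ (Finset.Icc (-R) R) ×ˢ
    (Finset.Icc (-R) R)).image (fun p => (⟨p.1, p.2.1, p.2.2.1, p.2.2.2⟩ : Q))

lemma mem_boxQ {R : ℤ} {u : Q} (h : nq u ≤ R) : u ∈ boxQ R := by
  have a1 := abs_nonneg u.re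
  have a2 := abs_nonneg u.imI
  have a3 := abs_nonneg u.imJ
  have a4 := abs_nonneg u.imK
  unfold nq at h
  simp only [boxQ, Finset.mem_image, Finset.mem_product, Finset.mem_Icc, ← abs_le]
  exact ⟨(u.re, u.imI, u.imJ, u.imK), ⟨by simp; omega, by simp; omega, by simp; omega,
    by simp; omega⟩, rfl⟩

@[irreducible] noncomputable def boxC (R : ℤ) : Finset C :=
  (Finset.Icc (-R) R) ×ˢ (Finset.Icc (-R) R) ×ˢ (Finset.Icc (-R) R)

lemma mem_boxC {R : ℤ} {u : C} (h : nc u ≤ R) : u ∈ boxC R := by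
  have a1 := abs_nonneg u.1
  have a2 := abs_nonneg u.2.1
  have a3 := abs_nonneg u.2.2
  unfold nc at h
  simp only [boxC, Finset.mem_product, Finset.mem_Icc, ← abs_le]
  omega

lemma card_boxC (R : ℕ) : (boxC R).card = (2 * R + 1) ^ 3 := by
  have : ((R : ℤ) + 1 - -(R : ℤ)).toNat = 2 * R + 1 := by omega
  simp only [boxC, Finset.card_product, Int.card_Icc, this]
  ring

instance : Finite F := by
  have : ((boxQ 1 : Finset Q) : Set Q).Finite := Finset.finite_toSet _
  have h2 : ((unitary Q : Submonoid Q) : Set Q).Finite :=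
    this.subset (fun u hu => mem_boxQ (nq_F ⟨u, hu⟩))
  exact h2

noncomputable instance : Fintype F := Fintype.ofFinite F

lemma S_finite : S.Finite := by
  classical
  have h1 : ((fun σ : ℤ => N ((16 * σ) • 1) 0) '' (Finset.Icc (-1 : ℤ) 1 : Set ℤ)).Finite :=
    (Finset.finite_toSet _).image _
  have h2 : ((fun p : Q × C => N p.1 p.2) '' ((boxQ 15 ×ˢ boxC 96 : Finset (Q × C)) :
      Set (Q × C))).Finite := (Finset.finite_toSet _).image _
  have h3 : (Set.range T).Finite := Set.finite_range _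
  refine ((h1.union h2).union h3).subset ?_
  rintro g (⟨σ, hσ, rfl⟩ | ⟨u, z, hu, hz, rfl⟩ | ⟨f, rfl⟩)
  · refine Or.inl (Or.inl ⟨σ, ?_, rfl⟩)
    simp only [Finset.coe_Icc, Set.mem_Icc, ← abs_le]; omega
  · exact Or.inl (Or.inr ⟨(u, z), Finset.mem_coe.2
      (Finset.mem_product.2 ⟨mem_boxQ hu, mem_boxC hz⟩), rfl⟩)
  · exact Or.inr ⟨f, rfl⟩

lemma S_inv {s : G} (h : s ∈ S) : s⁻¹ ∈ S := by
  rcases h with ⟨σ, hσ, rfl⟩ | ⟨u, z, hu, hz, rfl⟩ | ⟨f, rfl⟩
  · refine Or.inl ⟨-σ, by simpa using hσ, ?_⟩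
    ext1
    · simp only [inv_u, N_f, N_u, OneMemClass.coe_one, star_one, one_mul, mul_neg, neg_smul]
    · simp
    · simp
  · refine Or.inr (Or.inl ⟨-u, -z, by simpa using hu, by simpa using hz, ?_⟩)
    ext1 <;> simp
  · refine Or.inr (Or.inr ⟨f⁻¹, ?_⟩)
    ext1 <;> simp

noncomputable def seg (R : ℕ) : Finset G :=
  ((Finset.univ : Finset F) ×ˢ Finset.Icc (-(R : ℤ)) R).image
    (fun p => N ((16 * p.2) • (p.1 : Q)) 0)

lemma mem_seg {R : ℕ} (f : F) {c : ℤ} (h : |c| ≤ R) : N ((16 * c) • (f : Q)) 0 ∈ seg R := by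
  simp only [seg, Finset.mem_image, Finset.mem_product, Finset.mem_Icc, ← abs_le]
  exact ⟨(f, c), ⟨Finset.mem_univ _, h⟩, rfl⟩

lemma one_mem_seg (R : ℕ) : (1 : G) ∈ seg R := by
  have := mem_seg (R := R) 1 (c := 0) (by simp)
  simpa [N_zero] using this

lemma card_seg (R : ℕ) : (seg R).card ≤ Fintype.card F * (2 * R + 1) := by
  refine Finset.card_image_le.trans ?_
  have : ((R : ℤ) + 1 - -(R : ℤ)).toNat = 2 * R + 1 := by omega
  simp only [Finset.card_product, Finset.card_univ, Int.card_Icc, this, le_refl]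

lemma shape {n : ℕ} {g : G} (h : B n g) (R : ℕ) (hR : n ≤ R) : ∃ (τ k : ℕ) (a : G) (c : ℤ) (δ : Q)
    (ρ : C), nq g.u + 16 * τ + k ≤ 16 * n ∧ a ∈ seg R ^ τ ∧ |c| ≤ n ∧ nq δ ≤ 16 * k ∧
    nc ρ ≤ n * (512 * k + 96) ∧ g = a * N ((16 * c) • (g.f : Q)) 0 * N δ ρ * T g.f := by
  induction n generalizing g with
  | zero =>
    rw [B_zero_iff.1 h]
    exact ⟨0, 0, 1, 0, 0, 0, by simp, by simp, by simp, by simp, by simp, by simp [N_zero, T_one]⟩
  | succ n ih =>
    obtain ⟨g', s, hg, hs, rfl⟩ := B_succ h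
    obtain ⟨τ, k, a, c, δ, ρ, h1, h2, h3, h4, h5, h6⟩ := ih hg (by omega)
    have h7 := nq_mul_u g' s
    have hk : (0 : ℤ) ≤ k := by positivity
    have hn : (0 : ℤ) ≤ n := by positivity
    have hδ := nq_nonneg δ
    rcases hs with ⟨σ, hσ, rfl⟩ | ⟨u, z, hu, hz, rfl⟩ | ⟨f, rfl⟩
    · have e1 : nq ((16 * σ) • (1 : Q)) = 16 := by
        rw [nq_smul, nq_one, abs_mul, hσ]; norm_num
      have e2 : nq ((16 * σ) • (g'.f : Q)) = 16 := by
        have := nq_F_mul g'.f ((16 * σ) • 1)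
        rwa [mul_smul_comm, mul_one, e1] at this
      refine ⟨τ, k, a, c + σ, δ, ρ + (2 : ℤ) • om δ ((16 * σ) • (g'.f : Q)), ?_, h2, ?_, h4, ?_, ?_⟩
      · rw [N_u, e1] at h7; push_cast; omega
      · have := abs_add_le c σ
        push_cast; omega
      · have a1 := nc_add ρ ((2 : ℤ) • om δ ((16 * σ) • (g'.f : Q)))
        have a2 := nc_om δ ((16 * σ) • (g'.f : Q))
        rw [nc_smul] at a1
        rw [e2] at a2
        rw [show |(2 : ℤ)| = 2 by norm_num] at a1
        push_cast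
        nlinarith
      · rw [mul_f, N_f, mul_one]
        conv_lhs => rw [h6]
        rw [mul_assoc _ (T _), T_mul_N, ← mul_assoc]
        congr 1
        simp only [mul_assoc, N_mul, mul_smul_comm, mul_one]
        congr 1
        refine congrArg₂ N ?_ ?_
        · rw [mul_add, add_smul]; abel
        · simp only [mul_add, add_smul, om_add_left, om_smul_left, om_smul_right,
            om_self, om_skew (g'.f : Q) δ]
          module
    · refine ⟨τ, k + 1, a, c, δ + g'.f * u, ρ + z + om δ (g'.f * u), ?_, h2, ?_, ?_, ?_, ?_⟩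
      · rw [N_u] at h7; push_cast; omega
      · push_cast; omega
      · have := nq_add δ (g'.f * u)
        rw [nq_F_mul] at this
        push_cast; omega
      · have a1 := nc_add (ρ + z) (om δ (g'.f * u))
        have a2 := nc_add ρ z
        have a3 := nc_om δ (g'.f * u)
        rw [nq_F_mul] at a3
        have a4 := nq_nonneg u
        have a5 : nq δ * nq u ≤ (16 * k) * 15 := by gcongr
        push_cast
        nlinarith
      · rw [mul_f, N_f, mul_one]
        conv_lhs => rw [h6]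
        rw [mul_assoc _ (T _), T_mul_N, ← mul_assoc, mul_assoc _ (N δ ρ), N_mul]
    · refine ⟨τ + 1, k, a * N ((16 * c) • (g'.f : Q)) 0, 0, δ, ρ, ?_, ?_, ?_, h4, ?_, ?_⟩
      · rw [T_u, nq_zero] at h7; push_cast; omega
      · rw [pow_succ]
        exact Finset.mul_mem_mul h2 (mem_seg _ (by omega))
      · simp; positivity
      · push_cast; nlinarith
      · conv_lhs => rw [h6]
        simp [N_zero, mul_assoc, T_mul]

noncomputable def good (R : ℕ) : Finset G :=
  seg R ^ 6 * ((boxQ 1520 ×ˢ boxC ((48736 * R : ℕ) : ℤ)).image (fun p => N p.1 p.2)) *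
    (Finset.univ : Finset F).image T

lemma mem_good {n R : ℕ} {g : G} (h : B n g) (hR : n ≤ R) (hD : 16 * (n : ℤ) - nq g.u ≤ 95) :
    g ∈ good R := by
  obtain ⟨τ, k, a, c, δ, ρ, h1, h2, h3, h4, h5, h6⟩ := shape h R hR
  have hτ : τ ≤ 5 := by omega
  have hk : (k : ℤ) ≤ 95 := by omega
  have hR' : (n : ℤ) ≤ R := by exact_mod_cast hR
  rw [h6]
  refine Finset.mul_mem_mul (Finset.mul_mem_mul ?_ ?_) ?_
  · have : a * N ((16 * c) • (g.f : Q)) 0 ∈ seg R ^ (τ + 1) := by
      rw [pow_succ]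
      exact Finset.mul_mem_mul h2 (mem_seg _ (by omega))
    exact Finset.pow_subset_pow_right (one_mem_seg R) (by omega) this
  · refine Finset.mem_image.2 ⟨(δ, ρ), ?_, rfl⟩
    refine Finset.mem_product.2 ⟨mem_boxQ (by simp only; omega), mem_boxC ?_⟩
    have : (n : ℤ) * (512 * k + 96) ≤ R * 48736 := by
      apply mul_le_mul hR' (by omega) (by positivity) (by positivity)
    push_cast
    linarith
  · exact Finset.mem_image.2 ⟨g.f, Finset.mem_univ _, rfl⟩

lemma card_good : ∃ K : ℕ, ∀ R, (good R).card ≤ K * (R + 1) ^ 9 := by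
  refine ⟨(Fintype.card F * 2) ^ 6 * ((boxQ 1520).card * (2 * 48736) ^ 3) * Fintype.card F,
    fun R => ?_⟩
  have h1 : (seg R ^ 6).card ≤ (Fintype.card F * 2 * (R + 1)) ^ 6 := by
    refine Finset.card_pow_le.trans (Nat.pow_le_pow_left ((card_seg R).trans ?_) _)
    rw [mul_assoc]
    gcongr
    omega
  have h2 : ((boxQ 1520 ×ˢ boxC ((48736 * R : ℕ) : ℤ)).image (fun p => N p.1 p.2)).card ≤
      (boxQ 1520).card * (2 * 48736 * (R + 1)) ^ 3 := by
    refine Finset.card_image_le.trans ?_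
    rw [Finset.card_product, card_boxC]
    gcongr
    omega
  have h3 : ((Finset.univ : Finset F).image T).card ≤ Fintype.card F := Finset.card_image_le
  refine (Finset.card_mul_le.trans (Nat.mul_le_mul (Finset.card_mul_le.trans
    (Nat.mul_le_mul h1 h2)) h3)).trans (le_of_eq ?_)
  ring

lemma B_N (n : ℕ) (u : Q) (z : C) (hu : nq u ≤ 4 * n) (hz : nc z ≤ 3 * (n : ℤ) ^ 2) :
    B (1400 * n) (N u z) := by
  have h1 := B_small_zsmul (v := ⟨1, 0, 0, 0⟩) (w := 0) (by simp [nq]) (by simp) u.re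
  have h2 := B_small_zsmul (v := ⟨0, 1, 0, 0⟩) (w := 0) (by simp [nq]) (by simp) u.imI
  have h3 := B_small_zsmul (v := ⟨0, 0, 1, 0⟩) (w := 0) (by simp [nq]) (by simp) u.imJ
  have h4 := B_small_zsmul (v := ⟨0, 0, 0, 1⟩) (w := 0) (by simp [nq]) (by simp) u.imK
  have h5 := ((h1.mul h2).mul h3).mul h4
  simp only [N_mul] at h5
  obtain ⟨w, h6⟩ : ∃ w, B (4 * n) (N u w) := by
    refine ⟨_, h5.cong ?_ ?_ rfl⟩
    · unfold nq at hu
      zify
      omega
    · ext <;> simp [-zsmul_eq_mul]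
  have h7 := (B_size h6).2
  have h8 := lemC (76 * n) (z - w) (by
    have := nc_sub z w
    rw [N_z] at h7
    push_cast at *
    nlinarith [sq_nonneg (n : ℤ)])
  have h9 := h6.mul h8
  rw [N_mul, om_zero_right] at h9
  exact h9.cong (by omega) (by simp) (by simp)

lemma ball_lower (n : ℕ) : ∃ P : Finset G, P.card = n ^ 10 ∧ ∀ g ∈ P, B (1400 * n) g := by
  let I := Finset.Ico (0 : ℤ) n
  let J := Finset.Ico (0 : ℤ) ((n ^ 2 : ℕ) : ℤ)
  refine ⟨((I ×ˢ I ×ˢ I ×ˢ I) ×ˢ (J ×ˢ J ×ˢ J)).image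
    (fun p => N ⟨p.1.1, p.1.2.1, p.1.2.2.1, p.1.2.2.2⟩ p.2), ?_, ?_⟩
  · rw [Finset.card_image_of_injective]
    · simp only [Finset.card_product, I, J, Int.card_Ico, sub_zero, Int.toNat_natCast]
      ring
    · rintro ⟨⟨a, b, c, d⟩, z⟩ ⟨⟨a', b', c', d'⟩, z'⟩ h
      have h1 := congrArg G.u h
      have h2 := congrArg G.z h
      simp only [N_u, N_z] at h1 h2
      injection h1 with e1 e2 e3 e4
      simp [e1, e2, e3, e4, h2]
  · intro g hg
    obtain ⟨⟨⟨a, b, c, d⟩, x, y, z⟩, hp, rfl⟩ := Finset.mem_image.1 hg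
    simp only [Finset.mem_product, I, J, Finset.mem_Ico] at hp
    push_cast at hp
    apply B_N
    · simp only [nq]
      rw [abs_of_nonneg (by omega), abs_of_nonneg (by omega), abs_of_nonneg (by omega),
        abs_of_nonneg (by omega)]
      omega
    · simp only [nc]
      rw [abs_of_nonneg (by omega), abs_of_nonneg (by omega), abs_of_nonneg (by omega)]
      omega

end Pool.Agent.Lib.MP_f4297e_al
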