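import Mathlib

namespace Pool.Agent.Lib.MP_f4297e_al

open Quaternion

abbrev Q := Quaternion ℤ
abbrev C := ℤ × ℤ × ℤ
abbrev F := unitary Q

def om (u v : Q) : C := ((star u * v).imI, (star u * v).imJ, (star u * v).imK)

lemma om_add_left (u u' v : Q) : om (u + u') v = om u v + om u' v := by
  simp [om, add_mul]

lemma om_add_right (u v v' : Q) : om u (v + v') = om u v + om u v' := by
  simp [om, mul_add]

lemma om_neg_left (u v : Q) : om (-u) v = - om u v := by
  simp [om]

lemma om_neg_right (u v : Q) : om u (-v) = - om u v := by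
  simp [om]

lemma om_zero_left (v : Q) : om 0 v = 0 := by
  simp [om]

lemma om_zero_right (v : Q) : om v 0 = 0 := by
  simp [om]

lemma om_self (v : Q) : om v v = 0 := by
  simp only [om, Prod.mk_eq_zero]
  refine ⟨?_, ?_, ?_⟩ <;> simp <;> ring

lemma om_skew (u v : Q) : om u v = - om v u := by
  simp only [om, Prod.neg_mk, Prod.mk.injEq]
  refine ⟨?_, ?_, ?_⟩ <;> simp <;> ring

lemma F_star_mul (f : F) : star (f : Q) * (f : Q) = 1 := f.2.1
lemma F_mul_star (f : F) : (f : Q) * star (f : Q) = 1 := f.2.2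

@[simp] lemma F_coe_inv (f : F) : ((f⁻¹ : F) : Q) = star (f : Q) := rfl

lemma om_F (f : F) (u v : Q) : om ((f : Q) * u) ((f : Q) * v) = om u v := by
  have : star ((f : Q) * u) * ((f : Q) * v) = star u * v := by
    rw [star_mul, mul_assoc, ← mul_assoc (star (f : Q)), F_star_mul, one_mul]
  simp only [om, this]

@[ext] structure G where
  u : Q
  z : C
  f : F

instance : Mul G := ⟨fun a b => ⟨a.u + a.f * b.u, a.z + b.z + om a.u (a.f * b.u), a.f * b.f⟩⟩
instance : One G := ⟨⟨0, 0, 1⟩⟩
instance : Inv G := ⟨fun a => ⟨-(star (a.f : Q) * a.u), -a.z, a.f⁻¹⟩⟩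

@[simp] lemma mul_u (a b : G) : (a * b).u = a.u + a.f * b.u := rfl
@[simp] lemma mul_z (a b : G) : (a * b).z = a.z + b.z + om a.u (a.f * b.u) := rfl
@[simp] lemma mul_f (a b : G) : (a * b).f = a.f * b.f := rfl
@[simp] lemma one_u : (1 : G).u = 0 := rfl
@[simp] lemma one_z : (1 : G).z = 0 := rfl
@[simp] lemma one_f : (1 : G).f = 1 := rfl
@[simp] lemma inv_u (a : G) : a⁻¹.u = -(star (a.f : Q) * a.u) := rfl
@[simp] lemma inv_z (a : G) : a⁻¹.z = -a.z := rfl
@[simp] lemma inv_f (a : G) : a⁻¹.f = a.f⁻¹ := rfl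

instance : Group G := Group.ofLeftAxioms
  (fun a b c => by
    ext1
    · simp [mul_add, mul_assoc, add_assoc]
    · simp only [mul_z, mul_u, mul_f, Submonoid.coe_mul, mul_add, om_add_left, om_add_right,
        mul_assoc, om_F]
      abel
    · simp [mul_assoc])
  (fun a => by
    ext1 <;> simp [om_zero_left])
  (fun a => by
    ext1
    · simp
    · simp [om_neg_left, om_self]
    · simp)

def N (u : Q) (z : C) : G := ⟨u, z, 1⟩
def T (f : F) : G := ⟨0, 0, f⟩

@[simp] lemma N_u (u : Q) (z : C) : (N u z).u = u := rfl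
@[simp] lemma N_z (u : Q) (z : C) : (N u z).z = z := rfl
@[simp] lemma N_f (u : Q) (z : C) : (N u z).f = 1 := rfl
@[simp] lemma T_u (f : F) : (T f).u = 0 := rfl
@[simp] lemma T_z (f : F) : (T f).z = 0 := rfl
@[simp] lemma T_f (f : F) : (T f).f = f := rfl

lemma N_mul (u v : Q) (z w : C) : N u z * N v w = N (u + v) (z + w + om u v) := by
  ext1 <;> simp

lemma T_mul (f g : F) : T f * T g = T (f * g) := by
  ext1 <;> simp [om_zero_left]

lemma T_mul_N (f : F) (v : Q) (w : C) : T f * N v w = N (f * v) w * T f := by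
  ext1 <;> simp [om_zero_left, om_zero_right]

lemma eq_N_T (g : G) : g = N g.u g.z * T g.f := by
  ext1 <;> simp [om_zero_right]

lemma N_zero : N 0 0 = 1 := rfl
lemma T_one : T 1 = 1 := rfl

lemma central (w : C) (g : G) : N 0 w * g = g * N 0 w := by
  ext1 <;> simp [om_zero_left, om_zero_right, add_comm]

def nq (u : Q) : ℤ := |u.re| + |u.imI| + |u.imJ| + |u.imK|
def nc (z : C) : ℤ := |z.1| + |z.2.1| + |z.2.2|

lemma nq_nonneg (u : Q) : 0 ≤ nq u := by unfold nq; positivity
lemma nc_nonneg (u : C) : 0 ≤ nc u := by unfold nc; positivity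
@[simp] lemma nq_zero : nq 0 = 0 := by simp [nq]
@[simp] lemma nc_zero : nc 0 = 0 := by simp [nc]
@[simp] lemma nq_neg (u : Q) : nq (-u) = nq u := by simp [nq]
@[simp] lemma nc_neg (u : C) : nc (-u) = nc u := by simp [nc]

lemma nq_add (u v : Q) : nq (u + v) ≤ nq u + nq v := by
  simp only [nq, Quaternion.re_add, Quaternion.imI_add, Quaternion.imJ_add, Quaternion.imK_add]
  have := abs_add_le u.re v.re
  have := abs_add_le u.imI v.imI
  have := abs_add_le u.imJ v.imJ
  have := abs_add_le u.imK v.imK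
  linarith

lemma nc_add (u v : C) : nc (u + v) ≤ nc u + nc v := by
  simp only [nc, Prod.fst_add, Prod.snd_add]
  have := abs_add_le u.1 v.1
  have := abs_add_le u.2.1 v.2.1
  have := abs_add_le u.2.2 v.2.2
  linarith

lemma nc_sub (u v : C) : nc (u - v) ≤ nc u + nc v := by
  have := nc_add u (-v)
  simpa [sub_eq_add_neg] using this

lemma abs4 (a b c d : ℤ) : |a + b + c + d| ≤ |a| + |b| + |c| + |d| := by
  have := abs_add_le (a + b + c) d
  have := abs_add_le (a + b) c
  have := abs_add_le a b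
  linarith

lemma nq_mul (u v : Q) : nq (u * v) ≤ nq u * nq v := by
  have h1 := abs4 (u.re * v.re) (-(u.imI * v.imI)) (-(u.imJ * v.imJ)) (-(u.imK * v.imK))
  have h2 := abs4 (u.re * v.imI) (u.imI * v.re) (u.imJ * v.imK) (-(u.imK * v.imJ))
  have h3 := abs4 (u.re * v.imJ) (-(u.imI * v.imK)) (u.imJ * v.re) (u.imK * v.imI)
  have h4 := abs4 (u.re * v.imK) (u.imI * v.imJ) (-(u.imJ * v.imI)) (u.imK * v.re)
  simp only [abs_neg, abs_mul, ← sub_eq_add_neg] at h1 h2 h3 h4
  simp only [nq, Quaternion.re_mul, Quaternion.imI_mul, Quaternion.imJ_mul, Quaternion.imK_mul]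
  nlinarith

lemma nq_star (u : Q) : nq (star u) = nq u := by simp [nq]

lemma nc_om (u v : Q) : nc (om u v) ≤ nq u * nq v := by
  have h := nq_mul (star u) v
  rw [nq_star] at h
  have : nc (om u v) ≤ nq (star u * v) := by
    simp only [nc, om, nq]
    have := abs_nonneg (star u * v).re
    linarith
  linarith

lemma nq_F (f : F) : nq (f : Q) ≤ 1 := by
  have h := congrArg QuaternionAlgebra.re (F_star_mul f)
  simp only [re_mul, re_star, imI_star, imJ_star, imK_star, re_one] at h
  have h1 := Int.le_self_sq |(f : Q).re|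
  have h2 := Int.le_self_sq |(f : Q).imI|
  have h3 := Int.le_self_sq |(f : Q).imJ|
  have h4 := Int.le_self_sq |(f : Q).imK|
  rw [sq_abs] at h1 h2 h3 h4
  simp only [nq]
  nlinarith

lemma nq_F_mul (f : F) (v : Q) : nq ((f : Q) * v) = nq v := by
  apply le_antisymm
  · have := nq_mul f v
    have := nq_F f
    have := nq_nonneg v
    nlinarith
  · have h : v = star (f : Q) * ((f : Q) * v) := by rw [← mul_assoc, F_star_mul, one_mul]
    have := nq_mul (star (f : Q)) ((f : Q) * v)
    rw [← h, nq_star] at this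
    have := nq_F f
    have := nq_nonneg ((f : Q) * v)
    nlinarith

end Pool.Agent.Lib.MP_f4297e_al
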