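import Pool.Agent.Lib.MP_f4297e_al.Count

namespace Pool.Agent.Lib.MP_f4297e_al

open Quaternion Pointwise Filter SimpleGraph

lemma adj_mem {a b : G} (h : (mulCayley S).Adj a b) : a⁻¹ * b ∈ S := by
  obtain ⟨-, g, hg, h | h⟩ := (mulCayley_adj' S a b).1 h
  · rw [← h]; simpa using hg
  · rw [h]; simpa using S_inv hg

lemma walk_B {a b : G} (p : (mulCayley S).Walk a b) : B p.length (a⁻¹ * b) := by
  induction p with
  | nil => simpa using B_zero
  | cons h p ih =>
    have := (B_one (adj_mem h)).mul ih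
    simpa [add_comm, mul_assoc] using this

lemma B_walk {n : ℕ} {g : G} (h : B n g) : ∃ p : (mulCayley S).Walk 1 g, p.length ≤ n := by
  induction n generalizing g with
  | zero => rw [B_zero_iff.1 h]; exact ⟨.nil, le_rfl⟩
  | succ n ih =>
    obtain ⟨a, s, ha, hs, rfl⟩ := B_succ h
    obtain ⟨p, hp⟩ := ih ha
    by_cases h1 : a = a * s
    · rw [← h1]; exact ⟨p, by omega⟩
    · have : (mulCayley S).Adj a (a * s) := (mulCayley_adj' S _ _).2 ⟨h1, s, hs, Or.inl rfl⟩
      exact ⟨p.concat this, by simpa using hp⟩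

lemma dist_eq (g : G) : (mulCayley S).dist 1 g = len g := by
  obtain ⟨p, hp⟩ := B_walk (B_len g)
  apply le_antisymm ((dist_le p).trans hp)
  obtain ⟨q, hq⟩ := p.reachable.exists_walk_length_eq_dist
  have := walk_B q
  rw [hq] at this
  simpa using len_le this

lemma closure_S : Subgroup.closure S = ⊤ := by
  rw [eq_top_iff]
  intro g _
  obtain ⟨n, hn⟩ := exists_B g
  induction n generalizing g with
  | zero => rw [B_zero_iff.1 hn]; exact one_mem _
  | succ n ih =>
    obtain ⟨a, s, ha, hs, rfl⟩ := B_succ hn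
    exact mul_mem (ih trivial ha) (Subgroup.subset_closure hs)

instance : Infinite G := Infinite.of_injective (fun n : ℤ => N 0 (n, 0, 0)) (by
  intro a b h
  have := congrArg (fun g : G => g.z.1) h
  simpa using this)

def sph (n : ℕ) : Set G := {g | (mulCayley S).dist 1 g = n}
def str (n : ℕ) : Set G := {g | g ∈ sph n ∧ ∃ γ : ℕ → G, γ 0 = g ∧
  (∀ k, (mulCayley S).Adj (γ k) (γ (k + 1))) ∧ ∀ k, (mulCayley S).dist 1 (γ k) = n + k}

lemma ball_finite (n : ℕ) : {g | B n g}.Finite := by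
  show (S ^ n).Finite
  induction n with
  | zero => simp
  | succ n ih => rw [pow_succ]; exact ih.mul S_finite

lemma sph_finite (n : ℕ) : (sph n).Finite := (ball_finite n).subset (by
  intro g hg
  simp only [sph, Set.mem_ofPred_eq, dist_eq] at hg
  exact hg ▸ B_len g)

lemma str_finite (n : ℕ) : (str n).Finite := (sph_finite n).subset (fun _ h => h.1)

lemma str_good {n R : ℕ} (h : n ≤ R) {g : G} (hg : g ∈ str n) : g ∈ good R := by
  obtain ⟨h1, γ, h2, h3, h4⟩ := hg
  simp only [sph, Set.mem_ofPred_eq, dist_eq] at h1 h4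
  let r : Ray := ⟨γ, fun k => (γ k)⁻¹ * γ (k + 1), n, fun k => adj_mem (h3 k), fun k => by simp, h4⟩
  have := r.main
  simp only [Ray.D, r, h2, add_zero] at this
  exact mem_good (h1 ▸ B_len g) h this

lemma sum_str (R : ℕ) : ∑ n ∈ Finset.range (R + 1), (str n).ncard ≤ (good R).card := by
  have : ∑ n ∈ Finset.range (R + 1), (str n).ncard =
      ((Finset.range (R + 1)).biUnion (fun n => (str_finite n).toFinset)).card := by
    rw [Finset.card_biUnion]
    · exact Finset.sum_congr rfl (fun n _ => Set.ncard_eq_toFinset_card _ _)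
    · intro a _ b _ hab
      rw [Function.onFun, Finset.disjoint_left]
      intro g h1 h2
      rw [Set.Finite.mem_toFinset] at h1 h2
      exact hab (h1.1.symm.trans h2.1)
  rw [this]
  apply Finset.card_le_card
  intro g hg
  obtain ⟨n, hn, hg⟩ := Finset.mem_biUnion.1 hg
  rw [Set.Finite.mem_toFinset] at hg
  exact str_good (by simpa [Nat.lt_succ_iff] using hn) hg

lemma sum_sph (n : ℕ) : n ^ 10 ≤ ∑ k ∈ Finset.range (1400 * n + 1), (sph k).ncard := by
  obtain ⟨P, h1, h2⟩ := ball_lower n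
  rw [← h1]
  have : P ⊆ (Finset.range (1400 * n + 1)).biUnion (fun n => (sph_finite n).toFinset) := by
    intro g hg
    refine Finset.mem_biUnion.2 ⟨len g, ?_, ?_⟩
    · simpa [Nat.lt_succ_iff] using len_le (h2 g hg)
    · rw [Set.Finite.mem_toFinset]; exact dist_eq g
  refine (Finset.card_le_card this).trans (Finset.card_biUnion_le.trans (le_of_eq ?_))
  exact Finset.sum_congr rfl (fun n _ => (Set.ncard_eq_toFinset_card _ _).symm)

lemma freq (ε : ℝ) (hε : 0 < ε) :
    ∃ᶠ n in atTop, ((str n).ncard : ℝ) / (sph n).ncard ≤ ε := by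
  by_contra hh
  rw [not_frequently, eventually_atTop] at hh
  obtain ⟨n0, h0⟩ := hh
  obtain ⟨K, hK⟩ := card_good
  set c : ℝ := ∑ k ∈ Finset.range n0, ((sph k).ncard : ℝ) with hc
  have hc0 : 0 ≤ c := by positivity
  have h1 : ∀ k, ε * (sph k).ncard ≤ (str k).ncard + ε * (if k < n0 then ((sph k).ncard : ℝ) else 0) := by
    intro k
    split_ifs with h
    · have : (0 : ℝ) ≤ (str k).ncard := by positivity
      linarith
    · have h2 := h0 k (by omega)
      push Not at h2
      rcases (show (0 : ℝ) ≤ (sph k).ncard by positivity).eq_or_lt with h3 | h3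
      · rw [← h3]; simp
      · rw [lt_div_iff₀ h3] at h2
        linarith
  have h2 : ∀ n : ℕ, ε * (n : ℝ) ^ 10 ≤ K * (1400 * n + 1) ^ 9 + ε * c := by
    intro n
    have a1 : ((n : ℝ)) ^ 10 ≤ ∑ k ∈ Finset.range (1400 * n + 1), ((sph k).ncard : ℝ) := by
      exact_mod_cast sum_sph n
    have a2 : ∑ k ∈ Finset.range (1400 * n + 1), ((str k).ncard : ℝ) ≤ K * (1400 * n + 1) ^ 9 := by
      exact_mod_cast (sum_str (1400 * n)).trans (hK _)
    have a3 : ∑ k ∈ Finset.range (1400 * n + 1), (if k < n0 then ((sph k).ncard : ℝ) else 0) ≤ c := by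
      rw [← Finset.sum_filter]
      apply Finset.sum_le_sum_of_subset_of_nonneg
      · intro k hk
        simpa using (Finset.mem_filter.1 hk).2
      · intros; positivity
    have a4 := Finset.sum_le_sum (fun k (_ : k ∈ Finset.range (1400 * n + 1)) => h1 k)
    rw [Finset.sum_add_distrib, ← Finset.mul_sum, ← Finset.mul_sum] at a4
    nlinarith
  obtain ⟨n, hn⟩ := exists_nat_gt ((K * 1401 ^ 9 + ε * c) / ε + 1)
  have hq : 0 ≤ (K * 1401 ^ 9 + ε * c) / ε := by positivity
  have hn1 : (1 : ℝ) ≤ n := by linarith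
  have a1 : (1400 * (n : ℝ) + 1) ^ 9 ≤ (1401 * n) ^ 9 := by
    gcongr; linarith
  have a2 : (1 : ℝ) ≤ (n : ℝ) ^ 9 := one_le_pow₀ hn1
  have a3 : K * 1401 ^ 9 + ε * c < n * ε := by
    rw [← div_lt_iff₀ hε]; linarith
  have a4 := h2 n
  have a5 : (K : ℝ) * (1400 * (n : ℝ) + 1) ^ 9 ≤ K * (1401 * n) ^ 9 := by gcongr
  have a6 : ε * c ≤ ε * c * (n : ℝ) ^ 9 := le_mul_of_one_le_right (by positivity) a2
  have a7 : (K * 1401 ^ 9 + ε * c) * (n : ℝ) ^ 9 < n * ε * (n : ℝ) ^ 9 := by gcongr
  rw [mul_pow] at a5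
  nlinarith

theorem liminf_zero :
    liminf (fun n => ((str n).ncard : ℝ) / (sph n).ncard) atTop = 0 := by
  have h0 : ∀ n, (0 : ℝ) ≤ ((str n).ncard : ℝ) / (sph n).ncard := fun n => by positivity
  have h1 : ∀ n, ((str n).ncard : ℝ) / (sph n).ncard ≤ 1 := fun n => by
    apply div_le_one_of_le₀ _ (by positivity)
    exact_mod_cast Set.ncard_le_ncard (show str n ⊆ sph n from fun _ h => h.1) (sph_finite n)
  apply le_antisymm
  · apply le_of_forall_pos_le_add
    intro ε hε
    rw [zero_add]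
    exact liminf_le_of_frequently_le (freq ε hε) (isBoundedUnder_of ⟨0, h0⟩)
  · exact le_liminf_of_le (isCoboundedUnder_ge_of_le _ h1) (Eventually.of_forall h0)

end Pool.Agent.Lib.MP_f4297e_al
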