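import Pool.Agent.Lib.MP_f4297e_al.Words

namespace Pool.Agent.Lib.MP_f4297e_al

open Quaternion Pointwise

open Classical in
noncomputable def len (g : G) : ℕ := Nat.find (exists_B g)

open Classical in
lemma B_len (g : G) : B (len g) g := Nat.find_spec (exists_B g)

open Classical in
lemma len_le {n : ℕ} {g : G} (h : B n g) : len g ≤ n := Nat.find_min' _ h

def Full (s : G) : Prop := ∃ σ : ℤ, |σ| = 1 ∧ s = N ((16 * σ) • 1) 0

lemma not_full {s : G} (h : s ∈ S) (h' : ¬ Full s) : nq s.u ≤ 15 := by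
  rcases h with h | ⟨u, z, hu, hz, rfl⟩ | ⟨f, rfl⟩
  · exact absurd h h'
  · exact hu
  · simp

structure Ray where
  γ : ℕ → G
  s : ℕ → G
  n0 : ℕ
  hs : ∀ k, s k ∈ S
  step : ∀ k, γ (k + 1) = γ k * s k
  hl : ∀ k, len (γ k) = n0 + k

namespace Ray
variable (R : Ray)

def b (k j : ℕ) : G := (R.γ k)⁻¹ * R.γ (k + j)

lemma γ_add (k j : ℕ) : R.γ (k + j) = R.γ k * R.b k j := by simp [b]

lemma b_zero (k : ℕ) : R.b k 0 = 1 := by simp [b]

lemma b_succ (k j : ℕ) : R.b k (j + 1) = R.b k j * R.s (k + j) := by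
  simp only [b]
  rw [← add_assoc, R.step, mul_assoc]

lemma b_add (k j j' : ℕ) : R.b k (j + j') = R.b k j * R.b (k + j) j' := by
  simp [b, add_assoc, mul_assoc]

lemma B_b (k j : ℕ) : B j (R.b k j) := by
  induction j with
  | zero => rw [b_zero]; exact B_zero
  | succ j ih => rw [b_succ]; exact ih.mul (B_one (R.hs _))

lemma geo (k j m : ℕ) (h : B m (R.b k j)) : j ≤ m := by
  have h1 := len_le ((B_len (R.γ k)).mul h)
  rw [← γ_add, R.hl, R.hl] at h1
  omega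

def D (k : ℕ) : ℤ := 16 * ((R.n0 + k : ℕ) : ℤ) - nq (R.γ k).u

lemma D_succ (k : ℕ) : R.D k ≤ R.D (k + 1) := by
  have := nq_mul_u (R.γ k) (R.s k)
  have := (S_u (R.hs k)).1
  simp only [D, R.step]
  push_cast
  omega

lemma D_succ' (k : ℕ) (h : ¬ Full (R.s k)) : R.D k + 1 ≤ R.D (k + 1) := by
  have := nq_mul_u (R.γ k) (R.s k)
  have := not_full (R.hs k) h
  simp only [D, R.step]
  push_cast
  omega

lemma D_mono : Monotone R.D := monotone_nat_of_le_succ R.D_succ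

lemma full_eq (k : ℕ) (h1 : Full (R.s k)) (h2 : Full (R.s (k + 1))) : R.s (k + 1) = R.s k := by
  obtain ⟨σ, a1, b1⟩ := h1
  obtain ⟨τ, a2, b2⟩ := h2
  by_cases h : τ = σ
  · rw [b1, b2, h]
  · exfalso
    have : τ = -σ := by
      rcases abs_eq_abs.1 (a2.trans a1.symm) with h' | h'
      · exact absurd h' h
      · exact h'
    have h3 : R.b k 2 = 1 := by
      rw [b_succ, b_succ, b_zero, add_zero, b1, b2, one_mul, N_mul, om_real, ← add_smul, this]
      simp [N_zero]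
    have := R.geo k 2 0 (h3 ▸ B_zero)
    omega

lemma run (k L : ℕ) (h : ∀ j < L, Full (R.s (k + j))) (σ : ℤ)
    (hσ : R.s k = N ((16 * σ) • 1) 0) : R.b k L = N ((σ * (16 * L)) • 1) 0 := by
  have h1 : ∀ j < L, R.s (k + j) = N ((16 * σ) • 1) 0 := by
    intro j hj
    induction j with
    | zero => exact hσ
    | succ j ih =>
      rw [← add_assoc, R.full_eq (k + j) (h j (by omega)) (h (j + 1) hj)]
      exact ih (by omega)
  induction L with
  | zero => simp [b_zero, N_zero]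
  | succ L ih =>
    rw [b_succ, ih (fun j hj => h j (by omega)) (fun j hj => h1 j (by omega)), h1 L (by omega),
      N_mul, om_real, ← add_smul]
    refine congrArg₂ N ?_ (by simp)
    congr 1; push_cast; ring

lemma caseA (h : ∀ L k0, ∃ k ≥ k0, ∀ j < L, Full (R.s (k + j))) (k0 : ℕ) : R.D k0 ≤ 228 := by
  obtain ⟨g, m, ρ, h1, h2, h3⟩ := lemA (R.γ k0)
  have hρ := nc_nonneg ρ
  obtain ⟨k, hk, hf⟩ := h (6 + (nc ρ).toNat) k0
  obtain ⟨σ, hσ, hs⟩ := hf 0 (by omega)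
  have hr := R.run k _ hf σ hs
  obtain ⟨m', h4, h5⟩ := lemB ρ hσ (X := 16 * ((6 + (nc ρ).toNat : ℕ) : ℤ)) (by push_cast; omega)
  obtain ⟨d, rfl⟩ := Nat.exists_eq_add_of_le hk
  have h6 : R.γ (k0 + d + (6 + (nc ρ).toNat)) = g * R.b k0 d *
      N ((σ * (16 * ((6 + (nc ρ).toNat : ℕ) : ℤ))) • 1) ρ := by
    rw [γ_add, hr, γ_add, h3, mul_assoc g, central, mul_assoc, mul_assoc, mul_assoc, N_mul,
      om_zero_left]
    simp
  have h7 := len_le ((h1.mul (R.B_b k0 d)).mul h4)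
  rw [← h6, R.hl] at h7
  simp only [D]
  push_cast at *
  omega

lemma nq_b (k j : ℕ) : nq (R.b k j).u ≤ 16 * j := (B_size (R.B_b k j)).1

lemma caseB (L k0 : ℕ) (h : ∀ k ≥ k0, ∃ j < L, ¬ Full (R.s (k + j))) : False := by
  have h1 : ∀ k ≥ k0, nq (R.b k L).u ≤ 16 * L - 1 := by
    intro k hk
    obtain ⟨j, hj, hf⟩ := h k hk
    obtain ⟨d, rfl⟩ := Nat.exists_eq_add_of_lt hj
    have e : R.b k (j + d + 1) = R.b k j * R.s (k + j) * R.b (k + (j + 1)) d := by
      rw [← b_succ, ← b_add]; congr 1; omega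
    have a1 := nq_mul_u (R.b k j * R.s (k + j)) (R.b (k + (j + 1)) d)
    have a2 := nq_mul_u (R.b k j) (R.s (k + j))
    have a3 := R.nq_b k j
    have a4 := R.nq_b (k + (j + 1)) d
    have a5 := not_full (R.hs _) hf
    rw [e]
    push_cast
    omega
  have h2 : ∀ q : ℕ, ∀ k ≥ k0, nq (R.b k (L * q)).u ≤ 16 * (L * q) - q := by
    intro q
    induction q with
    | zero => intro k _; simp [b_zero]
    | succ q ih =>
      intro k hk
      rw [Nat.mul_succ, b_add]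
      have a1 := nq_mul_u (R.b k (L * q)) (R.b (k + L * q) L)
      have a2 := ih k hk
      have a3 := h1 (k + L * q) (by omega)
      push_cast
      linarith
  have hL : 1 ≤ L := by
    obtain ⟨j, hj, -⟩ := h k0 le_rfl
    omega
  obtain ⟨q, hq⟩ : ∃ q, L * 216 = q + 1 := ⟨L * 216 - 1, by omega⟩
  have h3 : ∀ k ≥ k0, ∃ g ρ, B q g ∧ nc ρ ≤ 704 * ((q : ℤ) + 1) ^ 2 ∧
      R.b k (q + 1) = g * N 0 ρ := by
    intro k hk
    obtain ⟨g, m, ρ, a1, a2, a3⟩ := lemA (R.b k (q + 1))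
    have a4 := h2 216 k hk
    rw [hq] at a4
    have a5 : ((L : ℤ) * 216) = q + 1 := by exact_mod_cast hq
    have a6 : m ≤ q := by
      push_cast at a4
      omega
    have a7 := a1.mono a6
    refine ⟨g, ρ, a7, ?_, a3⟩
    have a8 := (B_size a7).2
    have a9 := (B_size (R.B_b k (q + 1))).2
    have a10 : ρ = (R.b k (q + 1)).z - g.z := by
      rw [a3]; simp [om_zero_right]
    have a11 := nc_sub (R.b k (q + 1)).z g.z
    rw [a10]
    push_cast at a9
    have : (0 : ℤ) ≤ q := by positivity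
    nlinarith
  have h4 : ∀ J : ℕ, ∃ g ρ, B (J * q) g ∧ nc ρ ≤ J * (704 * ((q : ℤ) + 1) ^ 2) ∧
      R.b k0 (J * (q + 1)) = g * N 0 ρ := by
    intro J
    induction J with
    | zero => exact ⟨1, 0, by simpa using B_zero, by simp, by simp [b_zero, N_zero]⟩
    | succ J ih =>
      obtain ⟨g, ρ, a1, a2, a3⟩ := ih
      obtain ⟨g', ρ', b1, b2, b3⟩ := h3 (k0 + J * (q + 1)) (by omega)
      refine ⟨g * g', ρ + ρ', by rw [Nat.succ_mul]; exact a1.mul b1, ?_, ?_⟩
      · have := nc_add ρ ρ'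
        push_cast
        linarith
      · rw [Nat.succ_mul, b_add, a3, b3, mul_assoc, ← mul_assoc (N 0 ρ), central, mul_assoc,
          mul_assoc, N_mul, om_zero_left]
        simp
  obtain ⟨g, ρ, a1, a2, a3⟩ := h4 ((486 * (q + 1) + 1) ^ 2)
  have a4 := lemC (27 * (q + 1) * (486 * (q + 1) + 1)) ρ (by
    refine a2.trans ?_
    push_cast
    have : (0 : ℤ) ≤ ((q : ℤ) + 1) ^ 2 * (486 * ((q : ℤ) + 1) + 1) ^ 2 := by positivity
    nlinarith)
  have a5 := R.geo k0 _ _ (a3 ▸ a1.mul a4)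
  nlinarith

lemma D_bdd (k : ℕ) : R.D k ≤ 228 := by
  apply R.caseA
  intro L k0
  by_contra hh
  push Not at hh
  exact R.caseB L k0 hh

theorem main : R.D 0 ≤ 95 := by
  obtain ⟨d, ⟨k0, rfl⟩, hd⟩ := Int.exists_greatest_of_bdd (P := fun d => ∃ k, R.D k = d)
    ⟨228, by rintro _ ⟨k, rfl⟩; exact R.D_bdd k⟩ ⟨_, 0, rfl⟩
  have hf : ∀ j, Full (R.s (k0 + j)) := by
    intro j
    by_contra hh
    have a1 := R.D_succ' _ hh
    have a2 := R.D_mono (show k0 ≤ k0 + j by omega)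
    have a3 := hd _ ⟨k0 + j + 1, rfl⟩
    omega
  refine (R.D_mono (Nat.zero_le k0)).trans ?_
  obtain ⟨σ, hσ, hs⟩ := hf 0
  have hσ2 : σ * σ = 1 := by
    have := abs_mul_abs_self σ
    rw [hσ] at this; omega
  obtain ⟨g, m, A, x, ρ, a1, a2, a3, a4, a5⟩ := lemH (R.γ k0) hσ
  have hρ := nc_nonneg ρ
  have hx : |σ * x| = |x| := by rw [abs_mul, hσ, one_mul]
  have hx1 := le_abs_self (σ * x)
  have hx2 := neg_abs_le (σ * x)
  have hx3 := abs_nonneg x
  set j : ℕ := 20 + (nc ρ).toNat + |x|.toNat with hj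
  have hr := R.run k0 j (fun i _ => hf i) σ hs
  obtain ⟨m', b1, b2⟩ := lemB ρ hσ (X := σ * x - A + 16 * (j : ℤ)) (by push_cast [hj]; omega)
  have h6 : R.γ (k0 + j) = g * N ((σ * (σ * x - A + 16 * (j : ℤ))) • 1) ρ := by
    rw [γ_add, hr, a5, mul_assoc, N_mul, om_real, ← add_smul]
    congr 2
    · congr 1
      linear_combination (-x) * hσ2
    · simp
  have h7 := len_le (a1.mul b1)
  rw [← h6, R.hl] at h7
  simp only [D]
  push_cast at *
  omega

end Ray

end Pool.Agent.Lib.MP_f4297e_al
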