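import Pool.Agent.Lib.MP_f4297e_al.Grp

namespace Pool.Agent.Lib.MP_f4297e_al

open Quaternion Pointwise

def S : Set G := {g | (∃ σ : ℤ, |σ| = 1 ∧ g = N ((16 * σ) • 1) 0) ∨
  (∃ u z, nq u ≤ 15 ∧ nc z ≤ 96 ∧ g = N u z) ∨ ∃ f, g = T f}

def B (n : ℕ) (g : G) : Prop := g ∈ S ^ n

lemma small_mem {u : Q} {z : C} (hu : nq u ≤ 15) (hz : nc z ≤ 96) : N u z ∈ S :=
  Or.inr (Or.inl ⟨u, z, hu, hz, rfl⟩)

lemma T_mem (f : F) : T f ∈ S := Or.inr (Or.inr ⟨f, rfl⟩)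

lemma full_mem {σ : ℤ} (h : |σ| = 1) : N ((16 * σ) • 1) 0 ∈ S := Or.inl ⟨σ, h, rfl⟩

lemma one_mem_S : (1 : G) ∈ S := T_mem 1

lemma B_zero_iff {g : G} : B 0 g ↔ g = 1 := by simp [B]

lemma B_zero : B 0 1 := B_zero_iff.2 rfl

lemma B_one {s : G} (h : s ∈ S) : B 1 s := by simpa [B] using h

lemma B.mul {m n : ℕ} {a b : G} (ha : B m a) (hb : B n b) : B (m + n) (a * b) := by
  unfold B at *
  rw [pow_add]
  exact Set.mul_mem_mul ha hb

lemma B_succ {n : ℕ} {g : G} (h : B (n + 1) g) : ∃ a s, B n a ∧ s ∈ S ∧ g = a * s := by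
  unfold B at *
  rw [pow_succ] at h
  obtain ⟨a, ha, s, hs, rfl⟩ := h
  exact ⟨a, s, ha, hs, rfl⟩

lemma B.mono {m n : ℕ} {a : G} (ha : B m a) (h : m ≤ n) : B n a := by
  induction h with
  | refl => exact ha
  | step _ ih => simpa using ih.mul (B_one one_mem_S)

lemma B.cong {m n : ℕ} {u u' : Q} {z z' : C} (h : B m (N u z)) (h1 : m ≤ n) (h2 : u' = u)
    (h3 : z' = z) : B n (N u' z') := by
  subst h2 h3; exact h.mono h1

lemma om_smul_left (c : ℤ) (u v : Q) : om (c • u) v = c • om u v := by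
  simp only [om, Prod.smul_mk, Prod.mk.injEq]
  refine ⟨?_, ?_, ?_⟩ <;> simp <;> ring

lemma om_smul_right (c : ℤ) (u v : Q) : om u (c • v) = c • om u v := by
  simp only [om, Prod.smul_mk, Prod.mk.injEq]
  refine ⟨?_, ?_, ?_⟩ <;> simp <;> ring

lemma om_real (a b : ℤ) : om (a • 1) (b • 1) = 0 := by
  rw [om_smul_left, om_smul_right, om_self]; simp

lemma nq_smul (c : ℤ) (u : Q) : nq (c • u) = |c| * nq u := by
  simp only [nq, re_smul, imI_smul, imJ_smul, imK_smul, smul_eq_mul, abs_mul]; ring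

lemma nc_smul (c : ℤ) (u : C) : nc (c • u) = |c| * nc u := by
  simp only [nc, Prod.smul_fst, Prod.smul_snd, smul_eq_mul, abs_mul]; ring

lemma smul_one_eq (c : ℤ) : c • (1 : Q) = ⟨c, 0, 0, 0⟩ := by
  ext <;> simp only [re_smul, imI_smul, imJ_smul, imK_smul, re_one, imI_one, imJ_one, imK_one,
    smul_eq_mul, mul_one, mul_zero]

lemma nq_one : nq 1 = 1 := by simp [nq]

lemma B_npow {v : Q} {w : C} (h : N v w ∈ S) (n : ℕ) : B n (N ((n : ℤ) • v) ((n : ℤ) • w)) := by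
  induction n with
  | zero => simpa [N_zero] using B_zero
  | succ n ih =>
    have := ih.mul (B_one h)
    rw [N_mul, om_smul_left, om_self] at this
    convert this using 2
    · push_cast; rw [add_smul, one_smul]
    · push_cast; rw [add_smul, one_smul]; simp

lemma B_zsmul {v : Q} {w : C} (h : N v w ∈ S) (h' : N (-v) (-w) ∈ S) (c : ℤ) :
    B c.natAbs (N (c • v) (c • w)) := by
  rcases Int.natAbs_eq c with hc | hc
  · have := B_npow h c.natAbs
    rwa [← hc] at this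
  · have := B_npow h' c.natAbs
    rw [smul_neg, smul_neg, ← neg_smul, ← neg_smul, ← hc] at this
    exact this

lemma B_small_zsmul {v : Q} {w : C} (hv : nq v ≤ 15) (hw : nc w ≤ 96) (c : ℤ) :
    B c.natAbs (N (c • v) (c • w)) :=
  B_zsmul (small_mem hv hw) (small_mem (by simpa using hv) (by simpa using hw)) c

lemma B_full (c : ℤ) : B c.natAbs (N ((16 * c) • 1) 0) := by
  have h1 : N ((16 : ℤ) • 1) 0 ∈ S := by simpa using full_mem (σ := 1) (by simp)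
  have h2 : N (-((16 : ℤ) • 1)) (-0) ∈ S := by
    have := full_mem (σ := -1) (by simp)
    rw [show (16 * (-1) : ℤ) = -16 by norm_num, neg_smul] at this
    simpa only [neg_zero] using this
  have := B_zsmul h1 h2 c
  rwa [smul_zero, smul_smul, mul_comm] at this

lemma div16 (x : ℤ) : ∃ c r : ℤ, x = 16 * c + r ∧ 16 * |c| + |r| = |x| ∧ |r| ≤ 15 := by
  rcases le_total 0 x with h | h
  · refine ⟨x / 16, x % 16, by omega, ?_, ?_⟩
    · rw [abs_of_nonneg h, abs_of_nonneg (by omega), abs_of_nonneg (by omega)]; omega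
    · rw [abs_of_nonneg (by omega)]; omega
  · refine ⟨-((-x) / 16), -((-x) % 16), by omega, ?_, ?_⟩
    · rw [abs_of_nonpos h, abs_of_nonpos (by omega), abs_of_nonpos (by omega)]; omega
    · rw [abs_of_nonpos (by omega)]; omega

lemma B_real (y : ℤ) : ∃ m : ℕ, B m (N (y • 1) 0) ∧ 16 * (m : ℤ) ≤ |y| + 16 := by
  obtain ⟨c, r, h1, h2, h3⟩ := div16 y
  have hs : N (r • (1 : Q)) 0 ∈ S := small_mem (by rw [nq_smul, nq_one]; omega) (by simp)
  have := (B_full c).mul (B_one hs)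
  rw [N_mul, om_real, ← add_smul, ← h1] at this
  refine ⟨_, by simpa using this, ?_⟩
  push_cast
  have := abs_nonneg r
  omega

lemma S_u {s : G} (h : s ∈ S) : nq s.u ≤ 16 ∧ nc s.z ≤ 96 := by
  rcases h with ⟨σ, hσ, rfl⟩ | ⟨u, z, hu, hz, rfl⟩ | ⟨f, rfl⟩
  · simp only [N_u, N_z, nq_smul, nq_one, abs_mul, hσ, nc_zero]; norm_num
  · simp only [N_u, N_z]; omega
  · simp

lemma nq_mul_u (a b : G) : nq (a * b).u ≤ nq a.u + nq b.u := by
  have := nq_add a.u (a.f * b.u)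
  rwa [nq_F_mul] at this

lemma B_size {n : ℕ} {g : G} (h : B n g) : nq g.u ≤ 16 * n ∧ nc g.z ≤ 352 * (n : ℤ) ^ 2 := by
  induction n generalizing g with
  | zero => rw [B_zero_iff.1 h]; simp
  | succ n ih =>
    obtain ⟨a, s, ha, hs, rfl⟩ := B_succ h
    obtain ⟨h1, h2⟩ := ih ha
    obtain ⟨h3, h4⟩ := S_u hs
    have h5 := nq_mul_u a s
    refine ⟨by push_cast; omega, ?_⟩
    have h6 := nc_add (a.z + s.z) (om a.u (a.f * s.u))
    have h7 := nc_add a.z s.z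
    have h8 := nc_om a.u (a.f * s.u)
    rw [nq_F_mul] at h8
    have h9 := nq_nonneg a.u
    have h10 := nq_nonneg s.u
    have h11 : nq a.u * nq s.u ≤ (16 * n) * 16 := by gcongr
    have h12 : (0 : ℤ) ≤ n := by positivity
    rw [mul_z]
    push_cast
    nlinarith

lemma exists_eq_mul_N {a b : G} {v : Q} (hf : a.f = b.f) (hu : b.u = a.u + a.f * v) :
    ∃ ρ, b = a * N v ρ := by
  refine ⟨b.z - a.z - om a.u (a.f * v), ?_⟩
  ext1
  · simpa using hu
  · simp only [mul_z, N_z, N_u]; abel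
  · simp [hf]

def eI : F := ⟨⟨0, 1, 0, 0⟩, by constructor <;> ext <;> simp⟩
def eJ : F := ⟨⟨0, 0, 1, 0⟩, by constructor <;> ext <;> simp⟩
def eK : F := ⟨⟨0, 0, 0, 1⟩, by constructor <;> ext <;> simp⟩

lemma exists_seg {n : ℕ} {a : G} (ha : B n a) (e : F) (c : ℤ) :
    ∃ b, B (n + 1 + c.natAbs) b ∧ b.u = a.u + (16 * c) • (e : Q) := by
  refine ⟨a * T (a.f⁻¹ * e) * N ((16 * c) • 1) 0, (ha.mul (B_one (T_mem _))).mul (B_full c), ?_⟩
  simp only [mul_u, T_u, mul_zero, add_zero, mul_f, T_f, mul_inv_cancel_left, N_u, mul_smul_comm,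
    mul_one]

lemma lemH (g : G) {σ : ℤ} (hσ : |σ| = 1) : ∃ (h : G) (m : ℕ) (A x : ℤ) (ρ : C), B m h ∧ 0 ≤ A ∧
    A ≤ 45 ∧ 16 * (m : ℤ) ≤ nq g.u - |x| + A + 67 ∧ g = h * N ((x - σ * A) • 1) ρ := by
  set x : Q := star (g.f : Q) * g.u with hx
  have hxu : g.u = g.f * x := by rw [hx, ← mul_assoc, F_mul_star, one_mul]
  have hn : nq g.u = nq x := by rw [hxu, nq_F_mul]
  obtain ⟨c1, r1, a1, b1, d1⟩ := div16 x.imI
  obtain ⟨c2, r2, a2, b2, d2⟩ := div16 x.imJ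
  obtain ⟨c3, r3, a3, b3, d3⟩ := div16 x.imK
  obtain ⟨g1, p1, q1⟩ := exists_seg B_zero (g.f * eI) c1
  obtain ⟨g2, p2, q2⟩ := exists_seg p1 (g.f * eJ) c2
  obtain ⟨g3, p3, q3⟩ := exists_seg p2 (g.f * eK) c3
  have hs : ∀ r : ℤ, |r| ≤ 15 → |σ * (15 - |r|)| + |r| ≤ 15 := by
    intro r hr
    rw [abs_mul, hσ, abs_of_nonneg (show 0 ≤ 15 - |r| by omega)]; omega
  have s1 : N ⟨σ * (15 - |r1|), r1, 0, 0⟩ 0 ∈ S :=
    small_mem (by simpa [nq] using hs r1 d1) (by simp)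
  have s2 : N ⟨σ * (15 - |r2|), 0, r2, 0⟩ 0 ∈ S :=
    small_mem (by simpa [nq] using hs r2 d2) (by simp)
  have s3 : N ⟨σ * (15 - |r3|), 0, 0, r3⟩ 0 ∈ S :=
    small_mem (by simpa [nq] using hs r3 d3) (by simp)
  have p4 := (((p3.mul (B_one (T_mem (g3.f⁻¹ * g.f)))).mul (B_one s1)).mul (B_one s2)).mul
    (B_one s3)
  have := abs_nonneg r1
  have := abs_nonneg r2
  have := abs_nonneg r3
  obtain ⟨ρ, hρ⟩ := exists_eq_mul_N (a := g3 * T (g3.f⁻¹ * g.f) * N ⟨σ * (15 - |r1|), r1, 0, 0⟩ 0 *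
    N ⟨σ * (15 - |r2|), 0, r2, 0⟩ 0 * N ⟨σ * (15 - |r3|), 0, 0, r3⟩ 0) (b := g)
    (v := (x.re - σ * (45 - |r1| - |r2| - |r3|)) • 1) (by simp) (by
      simp only [mul_u, mul_f, T_u, T_f, N_u, N_f, mul_one, mul_inv_cancel_left, q3, q2, q1, one_u,
        mul_zero, add_zero, zero_add, Submonoid.coe_mul, ← mul_smul_comm, ← mul_add]
      rw [hxu]
      congr 1
      rw [smul_one_eq]
      ext <;> simp [-zsmul_eq_mul, eI, eJ, eK, a1, a2, a3] <;> ring)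
  refine ⟨_, _, 45 - |r1| - |r2| - |r3|, x.re, ρ, p4, by omega, by omega, ?_, hρ⟩
  rw [hn]
  unfold nq
  push_cast
  omega

def imv (q : Q) : C := (q.imI, q.imJ, q.imK)

lemma block {σ : ℤ} (hσ : |σ| = 1) (q : Q) (hq : q.re = 0) (hq1 : nq q ≤ 1) (p : ℕ) :
    B (p + 2) (N ((σ * (28 + 16 * p)) • 1) ((-(2 * σ * (14 + 16 * p))) • imv q)) := by
  have h14 : nq ((14 * σ) • (1 : Q)) = 14 := by rw [nq_smul, nq_one, abs_mul, hσ]; norm_num
  have s1 : N ((14 * σ) • 1 + q) 0 ∈ S :=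
    small_mem (by have := nq_add ((14 * σ) • 1) q; omega) (by simp)
  have s2 : N ((14 * σ) • 1 + -q) 0 ∈ S :=
    small_mem (by have := nq_add ((14 * σ) • 1) (-q); rw [nq_neg] at this; omega) (by simp)
  have h := ((B_one s1).mul (B_full (σ * p))).mul (B_one s2)
  have hp : (σ * p).natAbs = p := by
    have : ((σ * p).natAbs : ℤ) = p := by
      push_cast; rw [abs_mul, hσ]; simp
    exact_mod_cast this
  rw [hp, N_mul, N_mul] at h
  refine h.cong (by omega) ?_ ?_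
  · simp only [smul_one_eq]
    ext <;> simp [-zsmul_eq_mul] <;> ring
  · simp only [smul_one_eq, om, imv, Prod.smul_mk, Prod.mk_add_mk, zero_add, add_zero, Prod.mk.injEq]
    refine ⟨?_, ?_, ?_⟩ <;> simp [-zsmul_eq_mul, hq] <;> ring

lemma approx {σ : ℤ} (hσ : |σ| = 1) (r : ℤ) : ∃ (ε : ℤ) (p : ℕ), |ε| = 1 ∧ (p : ℤ) ≤ |r| ∧
    |r - (-(2 * σ * (14 + 16 * p))) * ε| ≤ 32 := by
  have hσ2 : σ * σ = 1 := by
    have := abs_mul_abs_self σ
    rw [hσ] at this; omega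
  rcases le_total 0 r with h | h
  · refine ⟨-σ, (r / 32).toNat, by simpa using hσ, ?_, ?_⟩
    · rw [abs_of_nonneg h]; omega
    · have : (-(2 * σ * (14 + 16 * ((r / 32).toNat : ℤ)))) * (-σ) =
          2 * (σ * σ) * (14 + 16 * ((r / 32).toNat : ℤ)) := by ring
      rw [this, hσ2, abs_le]; omega
  · refine ⟨σ, ((-r) / 32).toNat, hσ, ?_, ?_⟩
    · rw [abs_of_nonpos h]; omega
    · have : (-(2 * σ * (14 + 16 * (((-r) / 32).toNat : ℤ)))) * σ =
          -(2 * (σ * σ) * (14 + 16 * (((-r) / 32).toNat : ℤ))) := by ring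
      rw [this, hσ2, abs_le]; omega

lemma lemB (ρ : C) {σ X : ℤ} (hσ : |σ| = 1) (hX : 84 + 16 * nc ρ ≤ X) :
    ∃ m : ℕ, B m (N ((σ * X) • 1) ρ) ∧ 16 * (m : ℤ) ≤ X + 28 := by
  obtain ⟨e1, p1, a1, b1, d1⟩ := approx hσ ρ.1
  obtain ⟨e2, p2, a2, b2, d2⟩ := approx hσ ρ.2.1
  obtain ⟨e3, p3, a3, b3, d3⟩ := approx hσ ρ.2.2
  have h1 := block hσ ⟨0, e1, 0, 0⟩ rfl (by simp [nq, a1]) p1
  have h2 := block hσ ⟨0, 0, e2, 0⟩ rfl (by simp [nq, a2]) p2
  have h3 := block hσ ⟨0, 0, 0, e3⟩ rfl (by simp [nq, a3]) p3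
  set R : ℤ := X - 84 - 16 * (p1 + p2 + p3) with hR
  have hR0 : 0 ≤ R := by unfold nc at hX; omega
  set w : C := (ρ.1 - (-(2 * σ * (14 + 16 * p1))) * e1, ρ.2.1 - (-(2 * σ * (14 + 16 * p2))) * e2,
    ρ.2.2 - (-(2 * σ * (14 + 16 * p3))) * e3) with hw
  have s : N ((σ * (R % 16)) • 1) w ∈ S := small_mem (by
    rw [nq_smul, nq_one, abs_mul, hσ, abs_of_nonneg (by omega)]; omega) (by
    simp only [nc, hw]; omega)
  have h := (((h1.mul h2).mul h3).mul (B_full (σ * (R / 16)))).mul (B_one s)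
  simp only [N_mul, ← add_smul, om_real] at h
  refine ⟨_, h.cong le_rfl ?_ ?_, ?_⟩
  · congr 1
    have : X = 84 + 16 * (p1 + p2 + p3) + (16 * (R / 16) + R % 16) := by omega
    linear_combination σ * this
  · simp only [imv, hw, Prod.smul_mk, Prod.mk_add_mk, add_zero, smul_eq_mul]
    ext <;> simp
  · push_cast
    rw [abs_mul, hσ, abs_of_nonneg (by omega)]
    omega

lemma lemA (g : G) : ∃ (h : G) (m : ℕ) (ρ : C), B m h ∧ 16 * (m : ℤ) ≤ nq g.u + 200 ∧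
    g = h * N 0 ρ := by
  obtain ⟨h, m, A, x, ρ, h1, h2, h3, h4, h5⟩ := lemH g (σ := 1) (by simp)
  obtain ⟨m', h6, h7⟩ := B_real (x - 1 * A)
  refine ⟨_, _, ρ, h1.mul h6, ?_, ?_⟩
  · have := abs_sub x (1 * A)
    rw [one_mul, abs_of_nonneg h2] at this
    rw [one_mul] at h7
    push_cast
    omega
  · rw [mul_assoc, N_mul, om_zero_right]
    simpa using h5

lemma central1 (s : ℕ) (hs : 1 ≤ s) (q : Q) (hq : q.re = 0) (hq1 : nq q ≤ 1) (c : ℤ)
    (hc : |c| ≤ (s : ℤ) ^ 2) : B (6 * s) (N 0 (c • imv q)) := by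
  have hw : nc (imv q) ≤ 96 := by
    have : nc (imv q) ≤ nq q := by
      simp only [nc, nq, imv]; have := abs_nonneg q.re; omega
    omega
  have hs0 : (0 : ℤ) < 2 * s := by omega
  have hd := Int.mul_ediv_add_emod c (2 * s)
  have hm1 := Int.emod_nonneg c hs0.ne'
  have hm2 := Int.emod_lt_of_pos c hs0
  set d := c / (2 * s)
  set r := c % (2 * s)
  have hs1 : (1 : ℤ) ≤ s := by exact_mod_cast hs
  have hd1 : |d| ≤ s := by
    rw [abs_le] at hc ⊢
    constructor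
    · by_contra hh
      push Not at hh
      nlinarith
    · by_contra hh
      push Not at hh
      nlinarith
  have h1 := B_small_zsmul (v := 1) (w := 0) (by simp [nq_one]) (by simp) s
  have h2 := B_small_zsmul (v := q) (w := 0) (by omega) (by simp) d
  have h3 := B_small_zsmul (v := 1) (w := 0) (by simp [nq_one]) (by simp) (-s)
  have h4 := B_small_zsmul (v := q) (w := 0) (by omega) (by simp) (-d)
  have h5 := B_small_zsmul (v := 0) (w := imv q) (by simp) hw r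
  have h := (((h1.mul h2).mul h3).mul h4).mul h5
  simp only [N_mul] at h
  refine h.cong ?_ ?_ ?_
  · zify
    rw [abs_neg, abs_neg, abs_of_nonneg hm1, abs_of_nonneg (show (0 : ℤ) ≤ s by omega)]
    omega
  · simp
  · rw [← hd]
    simp only [smul_one_eq, om, imv, Prod.smul_mk, Prod.mk_add_mk, smul_zero, zero_add, add_zero,
      Prod.mk.injEq]
    refine ⟨?_, ?_, ?_⟩ <;> simp [-zsmul_eq_mul, hq] <;> ring

lemma lemC (s : ℕ) (ρ : C) (h : nc ρ ≤ (s : ℤ) ^ 2) : B (18 * s) (N 0 ρ) := by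
  have a1 := abs_nonneg ρ.1
  have a2 := abs_nonneg ρ.2.1
  have a3 := abs_nonneg ρ.2.2
  unfold nc at h
  rcases Nat.eq_zero_or_pos s with rfl | hs
  · have : ρ = 0 := by
      simp at h
      ext
      · simpa using (show |ρ.1| = 0 by omega)
      · simpa using (show |ρ.2.1| = 0 by omega)
      · simpa using (show |ρ.2.2| = 0 by omega)
    rw [this]; exact B_zero
  have h1 := central1 s hs ⟨0, 1, 0, 0⟩ rfl (by simp [nq]) ρ.1 (by omega)
  have h2 := central1 s hs ⟨0, 0, 1, 0⟩ rfl (by simp [nq]) ρ.2.1 (by omega)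
  have h3 := central1 s hs ⟨0, 0, 0, 1⟩ rfl (by simp [nq]) ρ.2.2 (by omega)
  have h := (h1.mul h2).mul h3
  simp only [N_mul, om_zero_left, add_zero] at h
  refine h.cong (by omega) rfl ?_
  simp [imv]

lemma exists_B (g : G) : ∃ n, B n g := by
  obtain ⟨h, m, ρ, h1, -, h2⟩ := lemA g
  have : nc ρ ≤ (((nc ρ).toNat : ℕ) : ℤ) ^ 2 := by
    have := nc_nonneg ρ
    rw [Int.toNat_of_nonneg this]
    exact Int.le_self_sq _
  exact ⟨_, h2 ▸ h1.mul (lemC _ _ this)⟩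

end Pool.Agent.Lib.MP_f4297e_al
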